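import Pool.Agent.H187R3.LVBrody

/-!
# MP_dc0411_ag: the Lang-Vojta equivalence fails for quasi-projective varieties

There is a quasi-projective variety `X` over `ℂ` (a smooth integral surface, open in the affine
plane) that is Brody hyperbolic, and a connected smooth quasi-projective curve `C` with a point `c`
such that infinitely many morphisms `C ⟶ X` map `c` to one point of `X`. So condition (1) of the
problem holds and condition (3) fails for `X`.

Put `P = u w (u - w)`. The surface is `{P ≠ 1, P ≠ -1}` without two non-zero points on each of the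
three lines `P = 0`, namely without the six points with `P = 0` and `u² - u w + w² = 1`. An entire
curve in `X` has constant `P` by Picard, and the fibres of `P` are hyperbolic. The maps `z ↦ z v`,
`P(v) = 1`, from `C = {z⁶ ≠ 1}` to `X` all map `0` to the origin.
-/

set_option autoImplicit false

open AlgebraicGeometry CategoryTheory

namespace Pool.Agent.Results.MP_dc0411_ag.PointedMaps

open Pool.Agent.H187R3.LV

/-- There is a quasi-projective variety `p : X ⟶ Spec ℂ`, which is moreover an integral scheme,
smooth of relative dimension 2 over `ℂ`, such that (1) holds: every holomorphic map `ℂ → X^an` is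
constant, while (3) fails: there are a connected smooth quasi-projective curve `C` over `ℂ` and
points `c ∈ C(ℂ)`, `x ∈ X(ℂ)` such that infinitely many morphisms `f : C ⟶ X` over `ℂ` have
`f(c) = x`. -/
theorem result : ∃ (X : Scheme.{0}) (p : X ⟶ SpecC), IsQuasiProjective p ∧ IsIntegral X ∧
    SmoothOfRelativeDimension 2 p ∧ BrodyHyperbolic p ∧ ¬ FinitePointedMaps p := by
  have hX : Nonempty XX.toScheme := ⟨origin (Classical.arbitrary SpecC)⟩
  have hC : Nonempty CC.toScheme := ⟨ptC 0 (by norm_num) (Classical.arbitrary SpecC)⟩
  have hXi : IsIntegral XX.toScheme := isIntegral_of_isOpenImmersion XX.ι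
  have hCi : IsIntegral CC.toScheme := isIntegral_of_isOpenImmersion CC.ι
  refine ⟨XX.toScheme, XX.ι ≫ aa 2, isQuasiProjective_opens 2 XX, hXi, smooth_opens 2 XX,
    brody_XX, fun h => ?_⟩
  refine infinite_maps (h CC.toScheme (CC.ι ≫ aa 1)
    ⟨inferInstance, smooth_opens 1 CC, isQuasiProjective_opens 1 CC⟩ _ _ ?_ ?_)
  · rw [← Category.assoc, ptC_ι, ptA_over]
  · rw [← Category.assoc, origin_ι, ptA_over]

end Pool.Agent.Results.MP_dc0411_ag.PointedMaps
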